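import Pool.Agent.U728.KP.Stm

/-!
Package NUM of project KP (helper728): arithmetic with a list of primes.
-/

set_option autoImplicit false

namespace Pool.Agent.U88.KP

open Pool.Agent.U728.KP

/-- From the prime `a` on each real `y ≤ 4011` has a prime `p` with `p + 1 ≤ y ≤ 1.019 (p + 1)`. -/
def Good (a : ℕ) : Prop := ∀ y : ℝ, (a : ℝ) + 1 ≤ y → y ≤ 4011 →
  ∃ p : ℕ, p.Prime ∧ 2000 ≤ p ∧ p ≤ 4100 ∧ (p : ℝ) + 1 ≤ y ∧ y ≤ 1.019 * ((p : ℝ) + 1)

theorem good_base {a : ℕ} (hp : a.Prime) (h1 : 2000 ≤ a) (h2 : a ≤ 4100)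
    (h3 : (4011 : ℝ) ≤ 1.019 * ((a : ℝ) + 1)) : Good a :=
  fun _ hy hy2 => ⟨a, hp, h1, h2, hy, hy2.trans h3⟩

theorem good_step {a q : ℕ} (hp : a.Prime) (h1 : 2000 ≤ a) (h2 : a ≤ 4100)
    (h3 : (q : ℝ) + 1 ≤ 1.019 * ((a : ℝ) + 1)) (h : Good q) : Good a := by
  intro y hy hy2
  rcases le_total ((q : ℝ) + 1) y with h4 | h4
  · exact h y h4 hy2
  · exact ⟨a, hp, h1, h2, hy, h4.trans h3⟩

theorem good_3947 : Good 3947 := good_base (by norm_num) (by norm_num) (by norm_num) (by norm_num)

theorem good_3889 : Good 3889 :=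
  good_step (q := 3947) (by norm_num) (by norm_num) (by norm_num) (by norm_num) good_3947

theorem good_3833 : Good 3833 :=
  good_step (q := 3889) (by norm_num) (by norm_num) (by norm_num) (by norm_num) good_3889

theorem good_3769 : Good 3769 :=
  good_step (q := 3833) (by norm_num) (by norm_num) (by norm_num) (by norm_num) good_3833

theorem good_3701 : Good 3701 :=
  good_step (q := 3769) (by norm_num) (by norm_num) (by norm_num) (by norm_num) good_3769

theorem good_3637 : Good 3637 :=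
  good_step (q := 3701) (by norm_num) (by norm_num) (by norm_num) (by norm_num) good_3701

theorem good_3571 : Good 3571 :=
  good_step (q := 3637) (by norm_num) (by norm_num) (by norm_num) (by norm_num) good_3637

theorem good_3511 : Good 3511 :=
  good_step (q := 3571) (by norm_num) (by norm_num) (by norm_num) (by norm_num) good_3571

theorem good_3449 : Good 3449 :=
  good_step (q := 3511) (by norm_num) (by norm_num) (by norm_num) (by norm_num) good_3511

theorem good_3391 : Good 3391 :=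
  good_step (q := 3449) (by norm_num) (by norm_num) (by norm_num) (by norm_num) good_3449

theorem good_3331 : Good 3331 :=
  good_step (q := 3391) (by norm_num) (by norm_num) (by norm_num) (by norm_num) good_3391

theorem good_3271 : Good 3271 :=
  good_step (q := 3331) (by norm_num) (by norm_num) (by norm_num) (by norm_num) good_3331

theorem good_3229 : Good 3229 :=
  good_step (q := 3271) (by norm_num) (by norm_num) (by norm_num) (by norm_num) good_3271

theorem good_3169 : Good 3169 :=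
  good_step (q := 3229) (by norm_num) (by norm_num) (by norm_num) (by norm_num) good_3229

theorem good_3121 : Good 3121 :=
  good_step (q := 3169) (by norm_num) (by norm_num) (by norm_num) (by norm_num) good_3169

theorem good_3067 : Good 3067 :=
  good_step (q := 3121) (by norm_num) (by norm_num) (by norm_num) (by norm_num) good_3121

theorem good_3019 : Good 3019 :=
  good_step (q := 3067) (by norm_num) (by norm_num) (by norm_num) (by norm_num) good_3067

theorem good_2963 : Good 2963 :=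
  good_step (q := 3019) (by norm_num) (by norm_num) (by norm_num) (by norm_num) good_3019

theorem good_2909 : Good 2909 :=
  good_step (q := 2963) (by norm_num) (by norm_num) (by norm_num) (by norm_num) good_2963

theorem good_2861 : Good 2861 :=
  good_step (q := 2909) (by norm_num) (by norm_num) (by norm_num) (by norm_num) good_2909

theorem good_2819 : Good 2819 :=
  good_step (q := 2861) (by norm_num) (by norm_num) (by norm_num) (by norm_num) good_2861

theorem good_2777 : Good 2777 :=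
  good_step (q := 2819) (by norm_num) (by norm_num) (by norm_num) (by norm_num) good_2819

theorem good_2731 : Good 2731 :=
  good_step (q := 2777) (by norm_num) (by norm_num) (by norm_num) (by norm_num) good_2777

theorem good_2683 : Good 2683 :=
  good_step (q := 2731) (by norm_num) (by norm_num) (by norm_num) (by norm_num) good_2731

theorem good_2633 : Good 2633 :=
  good_step (q := 2683) (by norm_num) (by norm_num) (by norm_num) (by norm_num) good_2683

theorem good_2593 : Good 2593 :=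
  good_step (q := 2633) (by norm_num) (by norm_num) (by norm_num) (by norm_num) good_2633

theorem good_2549 : Good 2549 :=
  good_step (q := 2593) (by norm_num) (by norm_num) (by norm_num) (by norm_num) good_2593

theorem good_2503 : Good 2503 :=
  good_step (q := 2549) (by norm_num) (by norm_num) (by norm_num) (by norm_num) good_2549

theorem good_2459 : Good 2459 :=
  good_step (q := 2503) (by norm_num) (by norm_num) (by norm_num) (by norm_num) good_2503

theorem good_2417 : Good 2417 :=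
  good_step (q := 2459) (by norm_num) (by norm_num) (by norm_num) (by norm_num) good_2459

theorem good_2377 : Good 2377 :=
  good_step (q := 2417) (by norm_num) (by norm_num) (by norm_num) (by norm_num) good_2417

theorem good_2333 : Good 2333 :=
  good_step (q := 2377) (by norm_num) (by norm_num) (by norm_num) (by norm_num) good_2377

theorem good_2293 : Good 2293 :=
  good_step (q := 2333) (by norm_num) (by norm_num) (by norm_num) (by norm_num) good_2333

theorem good_2251 : Good 2251 :=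
  good_step (q := 2293) (by norm_num) (by norm_num) (by norm_num) (by norm_num) good_2293

theorem good_2213 : Good 2213 :=
  good_step (q := 2251) (by norm_num) (by norm_num) (by norm_num) (by norm_num) good_2251

theorem good_2179 : Good 2179 :=
  good_step (q := 2213) (by norm_num) (by norm_num) (by norm_num) (by norm_num) good_2213

theorem good_2161 : Good 2161 :=
  good_step (q := 2179) (by norm_num) (by norm_num) (by norm_num) (by norm_num) good_2179

theorem good_2137 : Good 2137 :=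
  good_step (q := 2161) (by norm_num) (by norm_num) (by norm_num) (by norm_num) good_2161

theorem good_2099 : Good 2099 :=
  good_step (q := 2137) (by norm_num) (by norm_num) (by norm_num) (by norm_num) good_2137

theorem good_2069 : Good 2069 :=
  good_step (q := 2099) (by norm_num) (by norm_num) (by norm_num) (by norm_num) good_2099

theorem good_2039 : Good 2039 :=
  good_step (q := 2069) (by norm_num) (by norm_num) (by norm_num) (by norm_num) good_2069

theorem good_2003 : Good 2003 :=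
  good_step (q := 2039) (by norm_num) (by norm_num) (by norm_num) (by norm_num) good_2039

/-- The inequality behind one prime. -/
theorem ineq {p t : ℕ} {v w : ℝ} (h1 : 2000 ≤ p) (h2 : p ≤ 4100) (ht : 40 ≤ t) (hv0 : 0 ≤ v)
    (hv : v * p ≤ 2 ^ t + p) (hw0 : 0 ≤ w) (hw : w ≤ 1.02 * ((p : ℝ) + 1) * 2 ^ t) :
    v ^ p * (p : ℝ) ^ (p - 1) * w ≤ 1.03 * ((2 : ℝ) ^ t) ^ (p + 1) := by
  have hT : (2 : ℝ) ^ 40 ≤ 2 ^ t := pow_le_pow_right₀ (by norm_num) ht
  generalize (2 : ℝ) ^ t = T at *
  have hT0 : 0 < T := lt_of_lt_of_le (by positivity) hT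
  have hp1 : (2000 : ℝ) ≤ p := by exact_mod_cast h1
  have hp2 : (p : ℝ) ≤ 4100 := by exact_mod_cast h2
  have hp0 : (0 : ℝ) < p := by linarith
  have e1 : v ^ p * (p : ℝ) ^ (p - 1) * p = (v * p) ^ p := by
    rw [mul_pow, mul_assoc, ← pow_succ]
    congr 2
    omega
  have e2 : (v * p) ^ p ≤ T ^ p * 1.001 := by
    calc (v * p) ^ p ≤ (T + p) ^ p := pow_le_pow_left₀ (by positivity) hv p
      _ = T ^ p * (p / T + 1) ^ p := by
          rw [← mul_pow]
          congr 1
          field_simp
          ring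
      _ ≤ T ^ p * (Real.exp (p / T)) ^ p := by
          gcongr
          exact Real.add_one_le_exp _
      _ = T ^ p * Real.exp (p * (p / T)) := by rw [← Real.exp_nat_mul]
      _ ≤ T ^ p * 1.001 := by
          gcongr
          have h3 : (p : ℝ) * (p / T) ≤ 1 / 10000 := by
            rw [← mul_div_assoc, div_le_iff₀ hT0]
            have : (p : ℝ) * p ≤ 4100 * 4100 := by nlinarith
            have h5 : (2 : ℝ) ^ 40 = 1099511627776 := by norm_num
            linarith
          have h4 : Real.exp ((p : ℝ) * (p / T)) ≤ Real.exp (1 / 10000) := Real.exp_le_exp.2 h3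
          refine h4.trans ?_
          have h6 := Real.add_one_le_exp (-(1 / 10000 : ℝ))
          have h7 : Real.exp (1 / 10000 : ℝ) * Real.exp (-(1 / 10000 : ℝ)) = 1 := by
            rw [← Real.exp_add]; simp
          have h8 := Real.exp_pos (1 / 10000 : ℝ)
          nlinarith
  have e3 : v ^ p * (p : ℝ) ^ (p - 1) * w * p ≤ 1.03 * T ^ (p + 1) * p := by
    have hTp : 0 < T ^ p := by positivity
    have h9 : (p : ℝ) + 1 ≤ 1.001 * p := by linarith
    calc v ^ p * (p : ℝ) ^ (p - 1) * w * p = (v ^ p * (p : ℝ) ^ (p - 1) * p) * w := by ring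
      _ = (v * p) ^ p * w := by rw [e1]
      _ ≤ (T ^ p * 1.001) * w := by gcongr
      _ ≤ (T ^ p * 1.001) * (1.02 * ((p : ℝ) + 1) * T) := by gcongr
      _ ≤ (T ^ p * 1.001) * (1.02 * (1.001 * p) * T) := by gcongr
      _ = (1.001 * 1.02 * 1.001) * (T ^ (p + 1) * p) := by ring
      _ ≤ 1.03 * (T ^ (p + 1) * p) := by
          apply mul_le_mul_of_nonneg_right (by norm_num) (by positivity)
      _ = 1.03 * T ^ (p + 1) * p := by ring
  exact le_of_mul_le_mul_right e3 hp0

/-- One prime. -/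
theorem perprime (hH : S_HAM) (hB : S_BLOW) (hS : S_SURJ) (hE : S_EXT) (hY : S_SYND)
    {p t n : ℕ} (hp : p.Prime) (h1 : 2000 ≤ p) (h2 : p ≤ 4100) (ht : 40 ≤ t)
    (hn : (p + 1) * (2 ^ t - 1) ≤ n) (hn2 : (n : ℝ) + 1 ≤ 1.02 * ((p : ℝ) + 1) * 2 ^ t) :
    ∃ N : ℕ, HasCov (Fin n) Bool N ∧ (N : ℝ) * (n + 1) ≤ 1.03 * 2 ^ n := by
  obtain ⟨v, hv⟩ : ∃ v : ℕ, v = 2 ^ t / p + 1 := ⟨_, rfl⟩
  have hv0 : 0 < v := by rw [hv]; exact Nat.succ_pos _
  have hvp : 2 ^ t ≤ v * p := by
    have := Nat.lt_div_mul_add (a := 2 ^ t) hp.pos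
    rw [hv, add_mul, one_mul]
    exact this.le
  have hvp2 : v * p ≤ 2 ^ t + p := by
    rw [hv, add_mul, one_mul]
    exact Nat.add_le_add_right (Nat.div_mul_le_self _ _) _
  obtain ⟨k, rfl⟩ := Nat.exists_eq_add_of_le hn
  have c1 := hB (p + 1) v p (p ^ (p - 1)) (Nat.succ_pos p) hv0 (hH p hp)
  have c2 := hS (p + 1) (2 ^ t) (v * p) _ (by positivity) hvp c1
  have c3 := hY (p + 1) t _ (by omega) c2
  have c4 := hE _ k _ c3
  refine ⟨_, c4, ?_⟩
  have hvpR : (v : ℝ) * p ≤ 2 ^ t + p := by exact_mod_cast hvp2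
  have key := ineq (w := (((p + 1) * (2 ^ t - 1) + k : ℕ) : ℝ) + 1) h1 h2 ht
    (Nat.cast_nonneg v) hvpR (by positivity) hn2
  have e1 : (p + 1) * (2 ^ t - 1) = (p + 1) * (2 ^ t - 1 - t) + t * (p + 1) := by
    have h3 : t < 2 ^ t := Nat.lt_two_pow_self
    rw [mul_comm t, ← mul_add]
    congr 1
    omega
  have e2 : (2 : ℝ) ^ ((p + 1) * (2 ^ t - 1) + k) =
      2 ^ ((p + 1) * (2 ^ t - 1 - t)) * ((2 : ℝ) ^ t) ^ (p + 1) * 2 ^ k := by
    rw [pow_add, e1, pow_add, pow_mul 2 t (p + 1)]
  rw [e2]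
  generalize (((p + 1) * (2 ^ t - 1) + k : ℕ) : ℝ) + 1 = w at key ⊢
  push_cast
  have h5 : (0 : ℝ) < 2 ^ ((p + 1) * (2 ^ t - 1 - t)) * 2 ^ k := by positivity
  calc (v : ℝ) ^ p * (p : ℝ) ^ (p - 1) * 2 ^ ((p + 1) * (2 ^ t - 1 - t)) * 2 ^ k * w
      = (v ^ p * (p : ℝ) ^ (p - 1) * w) * (2 ^ ((p + 1) * (2 ^ t - 1 - t)) * 2 ^ k) := by ring
    _ ≤ (1.03 * ((2 : ℝ) ^ t) ^ (p + 1)) * (2 ^ ((p + 1) * (2 ^ t - 1 - t)) * 2 ^ k) :=
        mul_le_mul_of_nonneg_right key h5.le
    _ = 1.03 * (2 ^ ((p + 1) * (2 ^ t - 1 - t)) * ((2 : ℝ) ^ t) ^ (p + 1) * 2 ^ k) := by ring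

theorem t_NUM : S_NUM := by
  intro hH hB hS hE hY
  refine ⟨2004 * 2 ^ 40, fun n hn => ?_⟩
  obtain ⟨t, ht⟩ : ∃ t : ℕ, t = Nat.log 2 (n / 2004 + 1) := ⟨_, rfl⟩
  have a1 : 2 ^ t ≤ n / 2004 + 1 := by
    rw [ht]; exact Nat.pow_log_le_self 2 (by omega)
  have a2 : n / 2004 + 1 < 2 ^ (t + 1) := by
    rw [ht]; exact Nat.lt_pow_succ_log_self (by norm_num) _
  have a3 : 40 ≤ t := by
    rw [ht]
    apply Nat.le_log_of_pow_le (by norm_num)
    omega
  have b0 : 2 ^ 40 ≤ 2 ^ t := Nat.pow_le_pow_right (by norm_num) a3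
  have b1 : 2004 * (2 ^ t - 1) ≤ n := by omega
  have b2 : n < 2004 * (2 * 2 ^ t - 1) := by
    rw [pow_succ] at a2
    omega
  obtain ⟨T, hT⟩ : ∃ T : ℕ, T = 2 ^ t := ⟨_, rfl⟩
  rw [← hT] at b0 b1 b2
  have hT1 : (2 : ℝ) ^ 40 ≤ T := by exact_mod_cast b0
  have hT2 : ((T - 1 : ℕ) : ℝ) = (T : ℝ) - 1 := by
    rw [Nat.cast_sub (by omega)]; simp
  have h40 : (2 : ℝ) ^ 40 = 1099511627776 := by norm_num
  have hT3 : (0 : ℝ) < (T : ℝ) - 1 := by linarith
  have b1' : 2004 * ((T : ℝ) - 1) ≤ n := by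
    rw [← hT2]; exact_mod_cast b1
  have b2' : (n : ℝ) + 2004 ≤ 2004 * (2 * (T : ℝ)) := by
    have : n + 2004 ≤ 2004 * (2 * T) := by omega
    exact_mod_cast this
  obtain ⟨p, hp, h1, h2, h3, h4⟩ := good_2003 ((n : ℝ) / ((T : ℝ) - 1)) (by
      rw [le_div_iff₀ hT3]
      norm_num
      linarith) (by
      rw [div_le_iff₀ hT3]
      linarith)
  rw [le_div_iff₀ hT3] at h3
  rw [div_le_iff₀ hT3] at h4
  refine perprime hH hB hS hE hY (t := t) hp h1 h2 a3 ?_ ?_
  · rw [← hT]
    have : (((p + 1) * (T - 1) : ℕ) : ℝ) ≤ n := by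
      rw [Nat.cast_mul, hT2]
      push_cast
      exact h3
    exact_mod_cast this
  · have hT4 : (2 : ℝ) ^ t = T := by rw [hT]; push_cast; rfl
    rw [hT4]
    have hp1 : (2000 : ℝ) ≤ p := by exact_mod_cast h1
    nlinarith

end Pool.Agent.U88.KP
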